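import Pool.Agent.H95.FI.Defs

/-! Part DUAL of crew FI (helper16). -/

set_option autoImplicit false

open MvPolynomial

namespace H16.FI
open H95.FG H95.FI

theorem dt_eq {n : ℕ} (z Y : Fin n → ℂ) : dt z Y = dotProduct z Y := rfl

theorem dt_add_left {n : ℕ} (z z' Y : Fin n → ℂ) : dt (z + z') Y = dt z Y + dt z' Y := by
  simp only [dt_eq, add_dotProduct]

theorem dt_smul_left {n : ℕ} (c : ℂ) (z Y : Fin n → ℂ) : dt (c • z) Y = c * dt z Y := by
  simp only [dt_eq, smul_dotProduct, smul_eq_mul]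

theorem dt_add_right {n : ℕ} (z Y Y' : Fin n → ℂ) : dt z (Y + Y') = dt z Y + dt z Y' := by
  simp only [dt_eq, dotProduct_add]

theorem dt_sub_right {n : ℕ} (z Y Y' : Fin n → ℂ) : dt z (Y - Y') = dt z Y - dt z Y' := by
  simp only [dt_eq, dotProduct_sub]

theorem dt_smul_right {n : ℕ} (c : ℂ) (z Y : Fin n → ℂ) : dt z (c • Y) = c * dt z Y := by
  simp only [dt_eq, dotProduct_smul, smul_eq_mul]

theorem dt_sum_right {n r : ℕ} (z : Fin n → ℂ) (Y : Fin r → Fin n → ℂ) :
    dt z (∑ i, Y i) = ∑ i, dt z (Y i) := by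
  simp only [dt_eq, dotProduct_sum]

/-- the map `z ↦ (dt z (w i))_i` -/
noncomputable def mapL {n : ℕ} {ι : Type} (w : ι → Fin n → ℂ) : (Fin n → ℂ) →ₗ[ℂ] (ι → ℂ) where
  toFun z := fun i => dt z (w i)
  map_add' z z' := by funext i; exact dt_add_left _ _ _
  map_smul' c z := by funext i; exact dt_smul_left _ _ _

theorem dt_comm {n : ℕ} (z Y : Fin n → ℂ) : dt z Y = dt Y z := by
  simp only [dt_eq, dotProduct_comm]

theorem finrank_ker {n : ℕ} {ι : Type} [Fintype ι] (w : ι → Fin n → ℂ) :
    n ≤ Module.finrank ℂ (LinearMap.ker (mapL w)) + Fintype.card ι := by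
  have h1 := (mapL w).finrank_range_add_finrank_ker
  have h2 : Module.finrank ℂ (LinearMap.range (mapL w)) ≤ Fintype.card ι := by
    have h3 := Submodule.finrank_le (LinearMap.range (mapL w))
    rwa [Module.finrank_fintype_fun_eq_card] at h3
  rw [Module.finrank_fin_fun] at h1
  omega

/-- two mutually orthogonal subspaces -/
theorem orth_dim {n : ℕ} (E F : Submodule ℂ (Fin n → ℂ)) (h : ∀ z ∈ E, ∀ Y ∈ F, dt z Y = 0) :
    Module.finrank ℂ E + Module.finrank ℂ F ≤ n := by
  classical
  have h1 := Subspace.finrank_add_finrank_dualAnnihilator_eq F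
  rw [Module.finrank_fin_fun] at h1
  have h2 : (E.map (dotProductEquiv ℂ (Fin n)).toLinearMap) ≤ F.dualAnnihilator := by
    rintro _ ⟨z, hz, rfl⟩
    rw [Submodule.mem_dualAnnihilator]
    intro Y hY
    exact h z hz Y hY
  have h3 := Submodule.finrank_mono h2
  have h4 : Module.finrank ℂ (E.map (dotProductEquiv ℂ (Fin n)).toLinearMap)
      = Module.finrank ℂ E := LinearEquiv.finrank_map_eq (dotProductEquiv ℂ (Fin n)) E
  omega

/-- dual families -/
def Dl {n s : ℕ} (z0 Y0 : Fin s → Fin n → ℂ) (r : ℕ) : Prop :=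
  ∃ u v : Fin r → Fin n → ℂ, Orth u Y0 ∧ Orth z0 v ∧
    (∀ i j, dt (u i) (v j) = if i = j then 1 else 0)

theorem Dl_le {n s : ℕ} (z0 Y0 : Fin s → Fin n → ℂ) (r : ℕ) (h : Dl z0 Y0 r) : r ≤ n := by
  obtain ⟨u, v, _, _, huv⟩ := h
  have hli : LinearIndependent ℂ v := by
    rw [Fintype.linearIndependent_iff]
    intro g hg i
    have h1 : dt (u i) (∑ i, g i • v i) = dt (u i) 0 := congrArg (fun Y => dt (u i) Y) hg
    rw [dt_sum_right] at h1
    simp only [dt_smul_right, huv, mul_ite, mul_one, mul_zero, Finset.sum_ite_eq, Finset.mem_univ,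
      if_true] at h1
    rw [h1]
    simp [dt_eq]
  have h2 := hli.fintype_card_le_finrank
  rwa [Fintype.card_fin, Module.finrank_fin_fun] at h2

theorem t_DUAL : S_DUAL := by
  classical
  intro n s z0 Y0 _
  have h0 : Dl z0 Y0 0 := ⟨fun i => i.elim0, fun i => i.elim0, fun i => i.elim0,
    fun _ j => j.elim0, fun i => i.elim0⟩
  set r := Nat.findGreatest (Dl z0 Y0) n with hr
  have hDr : Dl z0 Y0 r := Nat.findGreatest_spec (P := Dl z0 Y0) (Nat.zero_le n) h0
  have hmax : ¬ Dl z0 Y0 (r + 1) := by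
    intro h
    have h1 := Nat.le_findGreatest (Dl_le z0 Y0 (r + 1) h) h
    omega
  obtain ⟨u, v, hu, hv, huv⟩ := hDr
  have hrest : ∀ z Y, (∀ j, dt z (Y0 j) = 0) → (∀ i, dt (z0 i) Y = 0) → (∀ j, dt z (v j) = 0) →
      (∀ i, dt (u i) Y = 0) → dt z Y = 0 := by
    intro z Y h1 h2 h3 h4
    by_contra hne
    apply hmax
    refine ⟨Fin.cons z u, Fin.cons ((dt z Y)⁻¹ • Y) v, ?_, ?_, ?_⟩
    · intro i j
      refine Fin.cases ?_ (fun i => ?_) i
      · simpa using h1 j
      · simpa using hu i j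
    · intro i j
      refine Fin.cases ?_ (fun j => ?_) j
      · simp only [Fin.cons_zero, dt_smul_right, h2 i, mul_zero]
      · simpa using hv i j
    · intro i j
      refine Fin.cases ?_ (fun i => ?_) i
      · refine Fin.cases ?_ (fun j => ?_) j
        · simp only [Fin.cons_zero, dt_smul_right, if_true]
          exact inv_mul_cancel₀ hne
        · simp only [Fin.cons_zero, Fin.cons_succ, h3 j]
          rw [if_neg (Fin.succ_ne_zero j).symm]
      · refine Fin.cases ?_ (fun j => ?_) j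
        · simp only [Fin.cons_zero, Fin.cons_succ, dt_smul_right, h4 i, mul_zero]
          rw [if_neg (Fin.succ_ne_zero i)]
        · simp only [Fin.cons_succ, huv i j, Fin.succ_inj]
  refine ⟨r, u, v, ?_, Dl_le z0 Y0 r ⟨u, v, hu, hv, huv⟩, hu, hv, huv, hrest⟩
  -- the dimension count
  have hE := finrank_ker (Sum.elim Y0 v)
  have hF := finrank_ker z0
  have hEF := orth_dim (LinearMap.ker (mapL (Sum.elim Y0 v))) (LinearMap.ker (mapL z0)) (by
    intro z hz Y hY
    have hz' : ∀ i, dt z (Sum.elim Y0 v i) = 0 := by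
      intro i
      have := congrFun (LinearMap.mem_ker.mp hz) i
      exact this
    have hY' : ∀ i, dt (z0 i) Y = 0 := by
      intro i
      have := congrFun (LinearMap.mem_ker.mp hY) i
      rw [dt_comm]
      exact this
    have h1 := hrest z (Y - ∑ i, (dt (u i) Y) • v i) (fun j => hz' (Sum.inl j)) ?_
      (fun j => hz' (Sum.inr j)) ?_
    · rw [dt_sub_right, dt_sum_right] at h1
      simp only [dt_smul_right] at h1
      have h2 : ∀ j, dt z (v j) = 0 := fun j => hz' (Sum.inr j)
      simp only [h2, mul_zero, Finset.sum_const_zero, sub_zero] at h1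
      exact h1
    · intro i
      rw [dt_sub_right, dt_sum_right]
      simp only [dt_smul_right, hY' i, hv i, mul_zero, Finset.sum_const_zero, sub_zero]
    · intro i
      rw [dt_sub_right, dt_sum_right]
      simp only [dt_smul_right, huv, mul_ite, mul_one, mul_zero, Finset.sum_ite_eq,
        Finset.mem_univ, if_true, sub_self])
  rw [Fintype.card_sum, Fintype.card_fin, Fintype.card_fin] at hE
  rw [Fintype.card_fin] at hF
  omega

end H16.FI
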