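import Pool.Agent.H95.FI.Defs

/-! Part MACC of crew FI (helper16). -/

set_option autoImplicit false

open MvPolynomial

namespace H16.FI
open H95.FG H95.FI

theorem indep_of_deg {a : ℕ} {κ : Type} (h : κ → Pn a) (h0 : ∀ i, h i ≠ 0)
    (hinj : Function.Injective (fun i => (MonomialOrder.lex : MonomialOrder (Fin a)).degree (h i))) :
    LinearIndependent ℂ h := by
  classical
  set M : MonomialOrder (Fin a) := MonomialOrder.lex with hM
  rw [linearIndependent_iff']
  intro s g hsum
  by_contra hcon
  push Not at hcon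
  obtain ⟨i0, hi0, hgi0⟩ := hcon
  obtain ⟨i, hi, hmax⟩ := Finset.exists_max_image (s.filter fun i => g i ≠ 0)
    (fun i => M.toSyn (M.degree (h i))) ⟨i0, Finset.mem_filter.mpr ⟨hi0, hgi0⟩⟩
  rw [Finset.mem_filter] at hi
  have hc := congrArg (coeff (M.degree (h i))) hsum
  rw [coeff_sum, Finset.sum_eq_single i] at hc
  · rw [coeff_smul, coeff_zero, smul_eq_mul, mul_eq_zero] at hc
    rcases hc with hc | hc
    · exact hi.2 hc
    · exact (M.coeff_degree_ne_zero_iff.mpr (h0 i)) hc
  · intro j hj hji
    rw [coeff_smul, smul_eq_mul]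
    by_cases hgj : g j = 0
    · rw [hgj, zero_mul]
    · have h1 := hmax j (Finset.mem_filter.mpr ⟨hj, hgj⟩)
      have h2 : M.toSyn (M.degree (h j)) ≠ M.toSyn (M.degree (h i)) := by
        intro he
        exact hji (hinj (M.toSyn.injective he))
      have h3 : M.toSyn (M.degree (h j)) < M.toSyn (M.degree (h i)) := lt_of_le_of_ne h1 h2
      rw [M.coeff_eq_zero_of_lt h3, mul_zero]
  · intro hni
    exact absurd hi.1 hni

theorem t_MACC : S_MACC := by
  intro a ι _ h h0
  classical
  set M : MonomialOrder (Fin a) := MonomialOrder.lex with hM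
  set D := Finset.univ.image (fun i => M.degree (h i)) with hD
  have hch : ∀ d : D, ∃ i, M.degree (h i) = d.1 := by
    intro d
    obtain ⟨i, _, hi⟩ := Finset.mem_image.mp d.2
    exact ⟨i, hi⟩
  choose c hc using hch
  have hli : LinearIndependent ℂ (fun d : D => h (c d)) := by
    refine indep_of_deg _ (fun d => h0 _) ?_
    intro d d' hdd
    have h1 : M.degree (h (c d)) = M.degree (h (c d')) := hdd
    rw [hc, hc] at h1
    exact Subtype.ext h1
  have h1 := finrank_span_eq_card hli
  rw [Fintype.card_coe] at h1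
  rw [← h1]
  have : FiniteDimensional ℂ (Submodule.span ℂ (Set.range h)) :=
    FiniteDimensional.span_of_finite ℂ (Set.finite_range h)
  refine Submodule.finrank_mono (Submodule.span_mono ?_)
  rintro _ ⟨d, rfl⟩
  exact ⟨c d, rfl⟩

end H16.FI
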